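import Pool.Agent.Lib.MP_662923_co.TubeMain

namespace Pool.Agent.Results.MP_662923_co.HighlyConnected

open Pool.Agent.Lib.MP_662923_co

/-- For every `k` there are `c` and `n₀` such that for every `n ≥ n₀` some `k`-connected graph on
`n` vertices with all degrees at least `n / c` has a poset of connected spanning subgraphs with an
antichain strictly larger than every level. -/
theorem result : ∀ k : ℕ, ∃ c n₀ : ℕ, ∀ n : ℕ, n₀ ≤ n → ∃ G : SimpleGraph (Fin n),
    G.Connected ∧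
    (∀ S : Set (Fin n), S.ncard < k → (G.induce Sᶜ).Connected) ∧
    (∀ v : Fin n, n ≤ c * (G.neighborSet v).ncard) ∧
    ∃ A : Set (SimpleGraph (Fin n)), (∀ H ∈ A, H ≤ G ∧ H.Connected) ∧
      IsAntichain (· ≤ ·) A ∧
      ∀ j : ℕ, {H : SimpleGraph (Fin n) | H ≤ G ∧ H.Connected ∧ H.edgeSet.ncard = j}.ncard
        < A.ncard := by
  intro k
  obtain ⟨s, hs⟩ : ∃ s, s = 2 * 4 ^ (k + 4) := ⟨_, rfl⟩
  have hs2 : 2 ≤ s := by
    have : 0 < 4 ^ (k + 4) := by positivity
    omega
  obtain ⟨t0, ht0⟩ := tube_not_sperner (s := s) (k := k + 4) (2 * (s + 1)) (by omega) hs.ge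
  refine ⟨3 * (s + 1), (s + 1) * (t0 + k + 4), fun n hn => ?_⟩
  have h1 : t0 + k + 4 ≤ n / (s + 1) :=
    (Nat.le_div_iff_mul_le (Nat.succ_pos s)).2 (by rw [mul_comm]; exact hn)
  have h2 : (s + 1) * (n / (s + 1)) ≤ n := Nat.mul_div_le n (s + 1)
  have h3 : n < (s + 1) * (n / (s + 1) + 1) := Nat.lt_mul_div_succ n (Nat.succ_pos s)
  have h4 : (s + 1) * (k + 4) ≤ n := le_trans (Nat.mul_le_mul_left _ (by omega)) hn
  let L := modLay (n := n) (⟨0, by omega⟩ : Fin (k + 4)) hs2 h4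
  have hL := modLay_card (n := n) (⟨0, by omega⟩ : Fin (k + 4)) hs2 h4 h2
  refine ⟨tube L, ?_, fun S hS => tube_induce_connected S (by omega), fun v => ?_,
    ht0 (n / (s + 1)) (by omega) L hL ?_⟩
  · have h := tube_induce_connected (L := L) ∅ (by simp)
    rw [Set.compl_empty] at h
    exact (SimpleGraph.induceUnivIso _).connected_iff.1 h
  · have h5 := tube_degree (L := L) hL v
    have h6 : (s + 1) * (n / (s + 1) + 1) ≤ (s + 1) * (3 * ((tube L).neighborSet v).ncard) :=
      Nat.mul_le_mul_left _ (by omega)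
    nlinarith
  · rw [Fintype.card_fin]
    have h6 : (s + 1) * (n / (s + 1) + 1) ≤ (s + 1) * (2 * (n / (s + 1))) :=
      Nat.mul_le_mul_left _ (by omega)
    nlinarith

end Pool.Agent.Results.MP_662923_co.HighlyConnected
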